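import Pool.Agent.Helper79.GT.St6

/-!
# GT module GDV (MP_c2d095_lc): the conditions for the procedure
-/

set_option autoImplicit false

namespace Pool.Agent.Helper22.GT

open Pool.Agent.Helper79.GT
open Pool.Agent.Helper19.SK Pool.Agent.Helper73.DC Pool.Agent.Helper79.GS Finset
open scoped Classical

private lemma sum_ind_le (m : ℕ) (q : ℕ → Prop) [DecidablePred q] :
    ∑ v ∈ range m, (if q v then 1 else 0) ≤ m := by
  calc ∑ v ∈ range m, (if q v then 1 else 0) ≤ ∑ _v ∈ range m, 1 := by
        apply Finset.sum_le_sum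
        intro v _
        split_ifs <;> omega
    _ = m := by simp

private lemma area_le (N n c u : ℕ) : areaN N n c u ≤ n * n := by
  unfold areaN
  exact sum_ind_le _ _

private lemma ter_le (N n c u : ℕ) : terN N n c u ≤ n * n := by
  unfold terN
  exact sum_ind_le _ _

private lemma sum_digits_lt (m : ℕ) (f : ℕ → ℕ) (hf : ∀ p, f p ≤ 2) :
    ∑ p ∈ range m, f p * 3 ^ p < 3 ^ m := by
  induction m with
  | zero => simp
  | succ m ih =>
    rw [Finset.sum_range_succ, pow_succ]
    have h1 := Nat.mul_le_mul_right (3 ^ m) (hf m)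
    omega

private lemma cnt_le (w : List (Fin 5)) (j p : ℕ) : cntV w j p ≤ 2 := by
  unfold cntV
  split_ifs <;> omega

private lemma sd_le (w : List (Fin 5)) (j : ℕ) : sdV w j ≤ 1 := by
  unfold sdV
  split_ifs <;> omega

private lemma tt_lt (P n2 M : ℕ) (hP : P = 3 ^ n2) : P * M + 1 < 2 ^ (2 * n2 + M + 2) := by
  have h1 : P ≤ 2 ^ (2 * n2) := by
    rw [hP, pow_mul]
    exact Nat.pow_le_pow_left (by norm_num) n2
  have h2 : M ≤ 2 ^ M := Nat.le_of_lt Nat.lt_two_pow_self
  have h3 : P * M ≤ 2 ^ (2 * n2 + M) := by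
    rw [pow_add]
    exact Nat.mul_le_mul h1 h2
  have h4 : 2 ^ (2 * n2 + M + 2) = 4 * 2 ^ (2 * n2 + M) := by
    rw [pow_add]; ring
  have h5 : 0 < 2 ^ (2 * n2 + M) := Nat.pos_of_ne_zero (by positivity)
  omega

private lemma xN_le (tc : Bool) (N : ℕ) (w : List (Fin 5)) (u : ℕ) (hu : u < TT N w) :
    xN tc N w u ≤ nV w * nV w + kbV w + MM w := by
  have h1 : u / PP N w < MM w := by
    unfold TT at hu
    exact Nat.div_lt_of_lt_mul hu
  unfold xN
  split_ifs
  · have := ter_le N (nV w) 1 (u % PP N w)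
    omega
  · have := area_le N (nV w) 1 (u % PP N w)
    omega

private lemma yN_le (tc : Bool) (N : ℕ) (w : List (Fin 5)) (u : ℕ) :
    yN tc N w u ≤ nV w * nV w + kwV w + MM w := by
  unfold yN MM
  split_ifs
  · have := ter_le N (nV w) 0 (u % PP N w)
    omega
  · have := area_le N (nV w) 0 (u % PP N w)
    omega

private lemma gV_le (tc : Bool) : gV tc ≤ 4 := by
  unfold gV
  split_ifs <;> omega

private lemma ar_le (tc : Bool) (N : ℕ) (w : List (Fin 5)) (c u : ℕ) :
    arV tc N w c u ≤ 4 * (2 * (nV w * nV w) + kbV w + kwV w + MM w + 8) := by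
  unfold arV
  have hg := gV_le tc
  by_cases h1 : u < TT N w
  · rw [if_pos h1]
    have hx := xN_le tc N w u h1
    have hy := yN_le tc N w u
    by_cases h2 : yN tc N w u < xN tc N w u
    · rw [if_pos h2]
      by_cases h3 : c = 1
      · rw [if_pos h3]
        have h4 := Nat.div_le_self (xN tc N w u - yN tc N w u + gV tc - 1) (gV tc)
        omega
      · rw [if_neg h3]; omega
    · rw [if_neg h2]
      by_cases h3 : c = 1
      · rw [if_pos h3]; omega
      · rw [if_neg h3]
        have h4 := Nat.div_le_self (yN tc N w u - xN tc N w u) (gV tc)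
        omega
  · rw [if_neg h1]
    split_ifs <;> omega

private lemma b0_lt (N : ℕ) (w : List (Fin 5))
    (hpw : ∀ p ≤ nV w * nV w, pw N 3 p = 3 ^ p) (hPP : PP N w = 3 ^ (nV w * nV w)) :
    b0V N w < PP N w * MM w + 1 := by
  unfold b0V
  have h1 : ∑ p ∈ range (nV w * nV w), cntV w 0 p * pw N 3 p
      = ∑ p ∈ range (nV w * nV w), cntV w 0 p * 3 ^ p := by
    apply Finset.sum_congr rfl
    intro p hp
    rw [hpw p (Nat.le_of_lt (Finset.mem_range.mp hp))]
  have h2 := sum_digits_lt (nV w * nV w) (cntV w 0) (cnt_le w 0)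
  rw [h1, ← hPP] at *
  have h3 : PP N w * MM w = PP N w * BB w + PP N w * (BB w + 1) := by
    unfold MM; ring
  have h4 : PP N w * 1 ≤ PP N w * (BB w + 1) := Nat.mul_le_mul_left _ (by omega)
  omega

/-- GT module GDV -/
theorem hGDV (hEVW : StEVW) (hEVB : StEVB) (hEVS : StEVS) (hSZV : StSZV) :
    Pool.Agent.Helper79.GT.StGDV := by
  obtain ⟨en, -, -, ekb, ekw, eR0, -, eMM, esd, eN, eHV⟩ := hEVW
  obtain ⟨e₁, hs⟩ := hSZV
  refine ⟨e₁, ?_⟩
  intro e he sk tc Sm hSm
  obtain ⟨-, -, hB⟩ := hEVB Sm hSm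
  have enn : E2 (α := Fin 5) (fun w _ => nV w * nV w) := e_mul en en
  have htt : ∀ w : List (Fin 5), TT (NN e w) w + 1 < 2 ^ (2 * (nV w * nV w) + MM w + 2) := by
    intro w
    have h := (hs e he sk tc Sm w).2.2.1
    unfold TT
    exact tt_lt _ _ _ h
  exact
    { eK := e_add (e_add (e_mul (e_con 2) enn) eMM) (e_con 2)
      eS := e_mul (e_con 4) (e_add (e_add (e_add (e_add (e_mul (e_con 2) enn) ekb) ekw) eMM)
        (e_con 8))
      eR := e_add eR0 (e_con 1)
      emv := fun N C U Y hN hC hU hY => (hB N C U Y hN hC hU hY).2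
      ear := fun N C U hN hC hU => hEVS.2 tc N C U hN hC hU
      eH := fun N C U hN hC hU => eHV sk N C U hN hC hU
      eb := fun N hN => (eN N hN).2.2
      epl := esd
      hmv := by
        intro w c u x h
        have ht := htt w
        have ho : o1 c ≤ 1 := by
          unfold o1
          split_ifs <;> omega
        show u < 2 ^ (2 * (nV w * nV w) + MM w + 2) ∧ x < 2 ^ (2 * (nV w * nV w) + MM w + 2)
        rcases h with ⟨h1, h2, -⟩ | ⟨h1, h2, -⟩
        · have h3 : u < TT (NN e w) w := h1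
          have h4 : x < TT (NN e w) w := h2
          constructor <;> omega
        · have h3 : u < TT (NN e w) w := h1
          have h4 : x = TT (NN e w) w + o1 c := h2
          constructor <;> omega
      har := fun w c u _ => ar_le tc (NN e w) w c u
      hb := by
        intro w
        obtain ⟨-, h1, h2, -⟩ := hs e he sk tc Sm w
        have h3 := b0_lt (NN e w) w h1 h2
        have h4 := htt w
        unfold TT at h4
        show b0V (NN e w) w < 2 ^ (2 * (nV w * nV w) + MM w + 2)
        omega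
      hpl := fun w => sd_le w 0
      hsz := fun w => (hs e he sk tc Sm w).1 }

end Pool.Agent.Helper22.GT
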